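import Mathlib

set_option autoImplicit false

namespace Pool.Agent.Results.MP_9880a5_co.No

/-- The 2-distance graph: two vertices are adjacent iff their distance is exactly `2`. -/
def dist2 {V : Type} (G : SimpleGraph V) : SimpleGraph V where
  Adj x y := G.edist x y = 2
  symm := ⟨fun x y h => by rwa [G.edist_comm]⟩
  loopless := ⟨fun x h => by simp at h⟩

def es : List (Fin 13 × Fin 13) :=
  [(0, 1), (0, 3), (0, 6), (1, 6), (1, 7), (7, 8), (8, 9), (9, 10), (10, 2), (2, 4), (2, 11),
    (11, 12), (12, 5)]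

def G0 : SimpleGraph (Fin 13) := SimpleGraph.fromRel fun x y => (x, y) ∈ es

instance : DecidableRel G0.Adj := fun x y => by unfold G0; infer_instance

def f : Fin 13 → Fin 13 := ![11, 10, 7, 5, 0, 12, 4, 8, 1, 3, 6, 9, 2]

theorem result : ∃ G : SimpleGraph (Fin 13), G.Connected ∧ Nonempty (G ≃g dist2 G) ∧
    ∃ v, ¬ (G.induce {v}ᶜ).Connected := by
  have e : ∀ p ∈ es, G0.Reachable p.1 p.2 := fun p hp =>
    SimpleGraph.Adj.reachable (by revert p; decide +kernel)
  have r : ∀ a b : Fin 13, (a, b) ∈ es → G0.Reachable 0 a → G0.Reachable 0 b :=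
    fun a b h k => k.trans (e _ h)
  have r0 : G0.Reachable 0 0 := .refl _
  have r1 := r 0 1 (by decide) r0
  have r7 := r 1 7 (by decide) r1
  have r8 := r 7 8 (by decide) r7
  have r9 := r 8 9 (by decide) r8
  have r10 := r 9 10 (by decide) r9
  have r2 := r 10 2 (by decide) r10
  have r11 := r 2 11 (by decide) r2
  have r12 := r 11 12 (by decide) r11
  have all : ∀ v, G0.Reachable 0 v := fun v => by
    fin_cases v
    exacts [r0, r1, r2, r 0 3 (by decide) r0, r 2 4 (by decide) r2, r 12 5 (by decide) r12,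
      r 0 6 (by decide) r0, r7, r8, r9, r10, r11, r12]
  refine ⟨G0, ⟨fun a b => (all a).symm.trans (all b)⟩,
    ⟨⟨Equiv.ofBijective f (by decide +kernel), fun {x y} => ?_⟩⟩, 0, fun h => ?_⟩
  · have k : ∀ x y, (f x ≠ f y ∧ ¬ G0.Adj (f x) (f y) ∧
        ∃ z, G0.Adj (f x) z ∧ G0.Adj (f y) z) ↔ G0.Adj x y := by decide +kernel
    exact (G0.edist_eq_two_iff (u := f x) (v := f y)).trans (k x y)
  · obtain ⟨w⟩ := h.preconnected ⟨3, by decide⟩ ⟨1, by decide⟩
    cases w with
    | cons a _ =>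
      rename_i u _
      have : ∀ z, G0.Adj 3 z → z = 0 := by decide
      exact u.2 (this _ a)

end Pool.Agent.Results.MP_9880a5_co.No
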